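import Pool.Agent.Lib.MP_479d4c_gt.H77.Arr

set_option autoImplicit false

/-!
# The two sides (step (6))

`h = d ga / sg` takes a value below the boundary value `h 1` at `19/20 i` and a value above it
at `0`.
-/

namespace Pool.Agent.Lib.MP_479d4c_gt.H77

open Complex ComplexConjugate

variable {sg ga : ℕ × ℕ → ℝ} {η d : ℝ}

theorem evd_zero (f : ℕ × ℕ → ℝ) : evd f 0 = f (0, 0) := by
  unfold evd
  rw [tsum_eq_single (0, 0)]
  · simp
  · rintro ⟨m, n⟩ hp
    rcases Nat.eq_zero_or_pos m with rfl | hm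
    · rcases Nat.eq_zero_or_pos n with rfl | hn
      · exact absurd rfl hp
      · simp [hn.ne']
    · simp [hm.ne']

/-- Perturbation of a quotient. -/
theorem quot_near {S G s g : ℂ} {η c : ℝ} (hc : η < c) (hS : c ≤ ‖S‖)
    (hs : ‖s - S‖ ≤ η) (hg : ‖g - G‖ ≤ η) :
    ‖g / s - G / S‖ ≤ η * (‖S‖ + ‖G‖) / ((‖S‖ - η) * ‖S‖) := by
  have hη : 0 ≤ η := (norm_nonneg _).trans hs
  have hSpos : 0 < ‖S‖ := lt_of_lt_of_le (lt_of_le_of_lt hη hc) hS
  have hsl : ‖S‖ - η ≤ ‖s‖ := by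
    have h := norm_sub_norm_le S (S - s)
    rw [sub_sub_cancel] at h
    rw [norm_sub_rev] at hs
    linarith
  have hspos : 0 < ‖S‖ - η := by linarith
  have hs0 : s ≠ 0 := norm_pos_iff.1 (lt_of_lt_of_le hspos hsl)
  have hS0 : S ≠ 0 := norm_pos_iff.1 hSpos
  rw [div_sub_div _ _ hs0 hS0, norm_div, norm_mul]
  have hnum : ‖g * S - s * G‖ ≤ η * (‖S‖ + ‖G‖) := by
    have e : g * S - s * G = (g - G) * S - (s - S) * G := by ring
    rw [e]
    calc ‖(g - G) * S - (s - S) * G‖ ≤ ‖(g - G) * S‖ + ‖(s - S) * G‖ := norm_sub_le _ _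
      _ ≤ η * ‖S‖ + η * ‖G‖ := by
          rw [norm_mul, norm_mul]; gcongr
      _ = η * (‖S‖ + ‖G‖) := by ring
  exact div_le_div₀ (by positivity) hnum (by positivity) (by gcongr)

theorem evd_near {f g : ℕ × ℕ → ℝ} (h : Near f g η) (hg : Summable fun p => wt p * |g p|) {w : ℂ} (h1 : ‖w‖ ≤ 1) :
    ‖evd f w - evd g w‖ ≤ η := by
  rw [h.evd_eq hg h1, add_sub_cancel_left]
  exact h.norm_le h1

theorem quot_one (hη : η ≤ 1 / 500) (hs : Near sg P1 η) (hg : Near ga P3 η) :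
    ‖evd ga 1 / evd sg 1 - 5 / 4‖ ≤ 1 / 200 := by
  have h1 : ‖(1 : ℂ)‖ ≤ 1 := by simp
  have e1 : evd P1 1 = 1 := by rw [evd_P1]; simp
  have e3 : evd P3 1 = 5 / 4 := by rw [evd_P3]; simp; norm_num
  have hs' := evd_near hs summable_P1 h1
  have hg' := evd_near hg summable_P3 h1
  rw [e1] at hs'
  rw [e3] at hg'
  have h0 : 0 ≤ η := (norm_nonneg _).trans hs'
  have := quot_near (c := 1) (by linarith) (by simp) hs' hg'
  rw [div_one] at this
  refine this.trans ?_
  have n54 : ‖(5 / 4 : ℂ)‖ = 5 / 4 := by simp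
  rw [n54, norm_one, div_le_iff₀ (by nlinarith)]
  nlinarith

theorem quot_low (hη : η ≤ 1 / 500) (hs : Near sg P1 η) (hg : Near ga P3 η) :
    ‖evd ga (19 / 20 * I) / evd sg (19 / 20 * I) - 142801 / 115520‖ ≤ 1 / 180 := by
  have h1 : ‖(19 / 20 * I : ℂ)‖ ≤ 1 := by
    rw [norm_mul, norm_I]; simp; norm_num
  have hc : conj (19 / 20 * I : ℂ) = -(19 / 20 * I) := by
    rw [map_mul, conj_I, map_div₀, map_ofNat, map_ofNat]; ring
  have e1 : evd P1 (19 / 20 * I) = 361 / 400 := by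
    rw [evd_P1, hc]
    linear_combination (-361 / 400 : ℂ) * I_sq
  have e3 : evd P3 (19 / 20 * I) = 142801 / 128000 := by
    rw [evd_P3, hc]
    have hI4 : I ^ 4 = 1 := I_pow_four
    linear_combination (361 / 400 : ℂ) * I_sq + (130321 / 128000 : ℂ) * hI4
  have hs' := evd_near hs summable_P1 h1
  have hg' := evd_near hg summable_P3 h1
  rw [e1] at hs'
  rw [e3] at hg'
  have h0 : 0 ≤ η := (norm_nonneg _).trans hs'
  have n1 : ‖(361 / 400 : ℂ)‖ = 361 / 400 := by simp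
  have n3 : ‖(142801 / 128000 : ℂ)‖ = 142801 / 128000 := by simp
  have := quot_near (c := 9 / 10) (by linarith) (by rw [n1]; norm_num) hs' hg'
  have e : (142801 / 128000 : ℂ) / (361 / 400) = 142801 / 115520 := by norm_num
  rw [e] at this
  refine this.trans ?_
  rw [n1, n3, div_le_iff₀ (by nlinarith)]
  nlinarith

theorem abs_re_sub_le {z : ℂ} {a b : ℝ} (h : ‖z - a‖ ≤ b) : |z.re - a| ≤ b := by
  have := Complex.abs_re_le_norm (z - a)
  rw [sub_re, ofReal_re] at this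
  exact this.trans h

/-- A point below the boundary. -/
theorem side_low (hη : η ≤ 1 / 500) (hs : Near sg P1 η) (hg : Near ga P3 η) :
    (evd ga (19 / 20 * I) / evd sg (19 / 20 * I)).re < (evd ga 1 / evd sg 1).re := by
  have h1 := quot_one hη hs hg
  have h2 := quot_low hη hs hg
  have h1' := abs_re_sub_le (a := 5 / 4) (by simpa using h1)
  have h2' := abs_re_sub_le (a := 142801 / 115520) (by simpa using h2)
  rw [abs_le] at h1' h2'
  have := h1'.1
  have := h2'.2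
  norm_num at *
  linarith

/-- A point above the boundary. -/
theorem side_high (hη : η ≤ 1 / 500) (hs : Near sg P1 η) (hg : Near ga P3 η) (hd : 0 < d)
    (hd2 : d ≤ 1 / 2) (s00 : sg (0, 0) = d) (g00 : ga (0, 0) = 1) :
    (evd ga 1 / evd sg 1).re < (evd ga 0 / evd sg 0).re := by
  have h1 := quot_one hη hs hg
  have h1' := abs_re_sub_le (a := 5 / 4) (by simpa using h1)
  rw [abs_le] at h1'
  rw [evd_zero, evd_zero, s00, g00]
  have e : (((1 : ℝ) : ℂ) / (d : ℂ)).re = 1 / d := by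
    rw [← ofReal_div, ofReal_re]
  rw [e]
  have : 2 ≤ 1 / d := by rw [le_div_iff₀ hd]; linarith
  linarith [h1'.2]

end Pool.Agent.Lib.MP_479d4c_gt.H77
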