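import Pool.Agent.Lib.MP_479d4c_gt.S.Iface
import Pool.Agent.Lib.MP_479d4c_gt.H77.Side

set_option autoImplicit false

/-!
# The rows INJ and SID of `S/Iface.lean`
-/

namespace CMC82.H77

open Complex ComplexConjugate
open Pool.Agent.Lib.MP_479d4c_gt.H77

theorem ev2_eq (f : Arr) (w : ℂ) : ev2 f w (conj w) = evd f w := by
  unfold ev2 evd
  exact tsum_congr fun p => mul_assoc _ _ _

theorem wt_eq : CMC82.wt = Pool.Agent.Lib.MP_479d4c_gt.H77.wt := rfl

theorem sg0_eq : sg0 = P1 := rfl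

theorem be0_eq : be0 = P2 := rfl

theorem ga0_eq : ga0 = P3 := by
  funext i
  simp only [ga0, P3, neg_div]

theorem near_iff {η : ℝ} {f g : Arr} (h : CMC82.Near η f g) :
    Pool.Agent.Lib.MP_479d4c_gt.H77.Near f g η := h

/-- (INJ) -/
theorem inj_st : InjS := by
  set N : ℝ := ∑' p, Pool.Agent.Lib.MP_479d4c_gt.H77.wt p * |P3 p| with hN
  have hN0 : 0 ≤ N := tsum_nonneg fun p => by have := wt_pos p; positivity
  refine ⟨1 / (40 * (N + 2)), by positivity, ?_⟩
  intro d sg be ga hd hdη hnr hlow hne w1 w2 h1 h2 hbe hga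
  set η : ℝ := 1 / (40 * (N + 2)) with hη
  have hηpos : 0 < η := by positivity
  have hη1 : η * (N + 2) = 1 / 40 := by
    rw [hη]; field_simp
  have hη80 : η ≤ 1 / 80 := by nlinarith
  have hs := near_iff hnr.s
  have hb := near_iff hnr.b
  have hg := near_iff hnr.g
  rw [sg0_eq] at hs
  rw [be0_eq] at hb
  rw [ga0_eq] at hg
  have hgs : Summable fun p => Pool.Agent.Lib.MP_479d4c_gt.H77.wt p * |ga p| :=
    hg.summable summable_P3
  have hgN : ∑' p, Pool.Agent.Lib.MP_479d4c_gt.H77.wt p * |ga p| ≤ η + N := by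
    have h := hgs.tsum_le_tsum (f := fun p => Pool.Agent.Lib.MP_479d4c_gt.H77.wt p * |ga p|)
      (g := fun p => Pool.Agent.Lib.MP_479d4c_gt.H77.wt p * |ga p - P3 p| +
        Pool.Agent.Lib.MP_479d4c_gt.H77.wt p * |P3 p|) (fun p => ?_) (hg.1.add summable_P3)
    · rw [hg.1.tsum_add summable_P3] at h
      linarith [hg.2]
    · have := wt_pos p
      rw [← mul_add]
      refine mul_le_mul_of_nonneg_left ?_ this.le
      calc |ga p| = |(ga p - P3 p) + P3 p| := by ring_nf
        _ ≤ |ga p - P3 p| + |P3 p| := abs_add_le _ _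
  -- the array `al`
  have hal : Pool.Agent.Lib.MP_479d4c_gt.H77.Near (fun p => sg p - d * ga p) P1 (1 / 20) := by
    have hle : ∀ p, Pool.Agent.Lib.MP_479d4c_gt.H77.wt p * |sg p - d * ga p - P1 p| ≤
        Pool.Agent.Lib.MP_479d4c_gt.H77.wt p * |sg p - P1 p| +
          d * (Pool.Agent.Lib.MP_479d4c_gt.H77.wt p * |ga p|) := by
      intro p
      have := wt_pos p
      have h : |sg p - d * ga p - P1 p| ≤ |sg p - P1 p| + d * |ga p| := by
        calc |sg p - d * ga p - P1 p| = |(sg p - P1 p) - d * ga p| := by ring_nf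
          _ ≤ |sg p - P1 p| + |d * ga p| := abs_sub _ _
          _ = |sg p - P1 p| + d * |ga p| := by rw [abs_mul, abs_of_pos hd]
      calc Pool.Agent.Lib.MP_479d4c_gt.H77.wt p * |sg p - d * ga p - P1 p|
          ≤ Pool.Agent.Lib.MP_479d4c_gt.H77.wt p * (|sg p - P1 p| + d * |ga p|) :=
            mul_le_mul_of_nonneg_left h this.le
        _ = _ := by ring
    have hsum := hs.1.add (hgs.mul_left d)
    have hsm : Summable fun p => Pool.Agent.Lib.MP_479d4c_gt.H77.wt p *
        |sg p - d * ga p - P1 p| :=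
      Summable.of_nonneg_of_le (fun p => by have := wt_pos p; positivity) hle hsum
    refine ⟨hsm, ?_⟩
    have h := hsm.tsum_le_tsum hle hsum
    rw [hs.1.tsum_add (hgs.mul_left d), tsum_mul_left] at h
    have h' : d * ∑' p, Pool.Agent.Lib.MP_479d4c_gt.H77.wt p * |ga p| ≤ η * (η + N) :=
      mul_le_mul hdη hgN (tsum_nonneg fun p => by have := wt_pos p; positivity) hηpos.le
    have := hs.2
    nlinarith
  have hb' : Pool.Agent.Lib.MP_479d4c_gt.H77.Near be P2 (1 / 20) :=
    ⟨hb.1, hb.2.trans (by linarith)⟩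
  have hs1 := hne w1 h1
  have hs2 := hne w2 h2
  have hal_ev : ∀ w : ℂ, ‖w‖ ≤ 1 → evd (fun p => sg p - d * ga p) w = evd sg w - d * evd ga w := by
    intro w hw
    have e : (fun p => sg p - d * ga p) = fun p => sg p - (fun q => d * ga q) p := rfl
    have hsm : Summable fun p => Pool.Agent.Lib.MP_479d4c_gt.H77.wt p *
        |(fun q => d * ga q) p| := by
      refine (hgs.mul_left d).congr fun p => ?_
      simp only [abs_mul, abs_of_pos hd]; ring
    rw [e, evd_sub_arr (hs.summable summable_P1) hsm hw]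
    congr 1
    unfold evd
    rw [← tsum_mul_left]
    refine tsum_congr fun p => ?_
    push_cast; ring
  refine inj_arr (al := fun p => sg p - d * ga p) (be := be) (η := 1 / 20) (by norm_num) le_rfl
    hal hb' ?_ ?_ ?_ hlow.b00 h1 h2 hs1 hs2 ?_ ?_
  · simp [hlow.l00]
  · simp [hlow.l10]
  · simp [hlow.l01]
  · rw [hal_ev w1 h1, hal_ev w2 h2, sub_div, sub_div, ← ev2_eq, ← ev2_eq, ← ev2_eq, ← ev2_eq,
      div_self hs1, div_self hs2, mul_div_assoc, mul_div_assoc, hga]
  · rw [← ev2_eq, ← ev2_eq, hbe]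

/-- (SID) -/
theorem sid_st : SidS := by
  refine ⟨1 / 500, by norm_num, ?_⟩
  intro d sg be ga hd hdη hnr hlow
  have hs := near_iff hnr.s
  have hg := near_iff hnr.g
  rw [sg0_eq] at hs
  rw [ga0_eq] at hg
  have hH : ∀ w, (Hf d sg ga w).re = d * (evd ga w / evd sg w).re := by
    intro w
    unfold Hf
    rw [ev2_eq, ev2_eq, re_ofReal_mul]
  refine ⟨⟨19 / 20 * I, ?_, ?_⟩, ⟨0, by simp, ?_⟩⟩
  · rw [norm_mul, norm_I]; simp; norm_num
  · rw [hH, hH]
    exact mul_lt_mul_of_pos_left (side_low le_rfl hs hg) hd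
  · rw [hH, hH]
    refine mul_lt_mul_of_pos_left ?_ hd
    have h1 := quot_one le_rfl hs hg
    have h1' := abs_re_sub_le (a := 5 / 4) (by simpa using h1)
    rw [abs_le] at h1'
    rw [evd_zero, evd_zero]
    have hga : ga (0, 0) ≠ 0 := by
      intro h0
      apply hlow.s00
      rw [hlow.l00, h0, mul_zero]
    have hga' : (ga (0, 0) : ℂ) ≠ 0 := ofReal_ne_zero.2 hga
    have hd' : (d : ℂ) ≠ 0 := ofReal_ne_zero.2 hd.ne'
    have e : (ga (0, 0) : ℂ) / (sg (0, 0) : ℂ) = ((1 / d : ℝ) : ℂ) := by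
      rw [hlow.l00]
      push_cast
      field_simp
    rw [e, ofReal_re]
    have : 2 ≤ 1 / d := by rw [le_div_iff₀ hd]; linarith
    linarith [h1'.2]

end CMC82.H77
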