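import Pool.Agent.Lib.MP_479d4c_gt.H77.Inj

set_option autoImplicit false

/-!
# Estimates for real double series on the closed unit disc

`f : ℕ × ℕ → ℝ`, `∑ (1 + m + n) (6/5)^(m+n) |f (m,n)| ≤ η`. The value at `w` is
`∑ f (m,n) w^m (conj w)^n`.
-/

namespace Pool.Agent.Lib.MP_479d4c_gt.H77

open Complex ComplexConjugate

theorem norm_pow_sub_pow_le' {x y : ℂ} {M : ℝ} (hx : ‖x‖ ≤ M) (hy : ‖y‖ ≤ M) (n : ℕ) :
    ‖x ^ n - y ^ n‖ ≤ n * M ^ (n - 1) * ‖x - y‖ := by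
  have hM : 0 ≤ M := (norm_nonneg _).trans hx
  rw [← (Commute.all x y).mul_geom_sum₂ n, norm_mul, mul_comm]
  refine mul_le_mul_of_nonneg_right ?_ (norm_nonneg _)
  calc ‖∑ i ∈ Finset.range n, x ^ i * y ^ (n - 1 - i)‖
      ≤ ∑ i ∈ Finset.range n, ‖x ^ i * y ^ (n - 1 - i)‖ := norm_sum_le _ _
    _ ≤ ∑ i ∈ Finset.range n, M ^ (n - 1) := by
        refine Finset.sum_le_sum fun i hi => ?_
        rw [norm_mul, norm_pow, norm_pow]
        have hi' : i + (n - 1 - i) = n - 1 := by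
          have := Finset.mem_range.1 hi; omega
        calc ‖x‖ ^ i * ‖y‖ ^ (n - 1 - i) ≤ M ^ i * M ^ (n - 1 - i) := by gcongr
          _ = M ^ (n - 1) := by rw [← pow_add, hi']
    _ = n * M ^ (n - 1) := by simp

/-- Difference of two monomials in `w, conj w`. -/
theorem mono_sub_le {w w' : ℂ} (h1 : ‖w‖ ≤ 1) (h : ‖w'‖ ≤ ‖w‖) (m n : ℕ) :
    ‖w ^ m * conj w ^ n - w' ^ m * conj w' ^ n‖ ≤ (m + n) * ‖w - w'‖ := by
  have e : w ^ m * conj w ^ n - w' ^ m * conj w' ^ n =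
      (w ^ m - w' ^ m) * conj w ^ n + w' ^ m * (conj w ^ n - conj w' ^ n) := by ring
  have h' : ‖w'‖ ≤ 1 := h.trans h1
  rw [e]
  refine (norm_add_le _ _).trans ?_
  rw [norm_mul, norm_mul, norm_pow, norm_pow, Complex.norm_conj]
  have a1 : ‖w ^ m - w' ^ m‖ ≤ m * ‖w - w'‖ := by
    simpa using norm_pow_sub_pow_le' h1 h' m
  have a2 : ‖conj w ^ n - conj w' ^ n‖ ≤ n * ‖w - w'‖ := by
    have := norm_pow_sub_pow_le' (x := conj w) (y := conj w') (M := 1)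
      (by rwa [Complex.norm_conj]) (by rwa [Complex.norm_conj]) n
    rw [← map_sub, Complex.norm_conj] at this
    simpa using this
  have b1 : ‖w‖ ^ n ≤ 1 := pow_le_one₀ (norm_nonneg _) h1
  have b2 : ‖w'‖ ^ m ≤ 1 := pow_le_one₀ (norm_nonneg _) h'
  have c1 : ‖w ^ m - w' ^ m‖ * ‖w‖ ^ n ≤ m * ‖w - w'‖ :=
    (mul_le_of_le_one_right (norm_nonneg _) b1).trans a1
  have c2 : ‖w'‖ ^ m * ‖conj w ^ n - conj w' ^ n‖ ≤ n * ‖w - w'‖ :=
    (mul_le_of_le_one_left (norm_nonneg _) b2).trans a2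
  linarith

/-- Difference of two monomials of degree at least two. -/
theorem mono_sub_le_two {w w' : ℂ} (h1 : ‖w‖ ≤ 1) (h : ‖w'‖ ≤ ‖w‖) (m n : ℕ)
    (hmn : 2 ≤ m + n) :
    ‖w ^ m * conj w ^ n - w' ^ m * conj w' ^ n‖ ≤ (m + n) * (‖w‖ * ‖w - w'‖) := by
  have e : w ^ m * conj w ^ n - w' ^ m * conj w' ^ n =
      (w ^ m - w' ^ m) * conj w ^ n + w' ^ m * (conj w ^ n - conj w' ^ n) := by ring
  have h' : ‖w'‖ ≤ 1 := h.trans h1
  have h0 : 0 ≤ ‖w‖ := norm_nonneg _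
  rw [e]
  refine (norm_add_le _ _).trans ?_
  rw [norm_mul, norm_mul, norm_pow, norm_pow, Complex.norm_conj]
  have a1 : ‖w ^ m - w' ^ m‖ ≤ m * ‖w‖ ^ (m - 1) * ‖w - w'‖ := norm_pow_sub_pow_le' le_rfl h m
  have a2 : ‖conj w ^ n - conj w' ^ n‖ ≤ n * ‖w‖ ^ (n - 1) * ‖w - w'‖ := by
    have := norm_pow_sub_pow_le' (x := conj w) (y := conj w') (M := ‖w‖)
      (by rw [Complex.norm_conj]) (by rwa [Complex.norm_conj]) n
    rwa [← map_sub, Complex.norm_conj] at this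
  have c1 : ‖w ^ m - w' ^ m‖ * ‖w‖ ^ n ≤ m * (‖w‖ * ‖w - w'‖) := by
    rcases Nat.eq_zero_or_pos m with hm | hm
    · subst hm; simp
    · have hp : ‖w‖ ^ (m - 1) * ‖w‖ ^ n ≤ ‖w‖ := by
        rw [← pow_add]
        calc ‖w‖ ^ (m - 1 + n) ≤ ‖w‖ ^ 1 := pow_le_pow_of_le_one h0 h1 (by omega)
          _ = ‖w‖ := pow_one _
      calc ‖w ^ m - w' ^ m‖ * ‖w‖ ^ n ≤ (m * ‖w‖ ^ (m - 1) * ‖w - w'‖) * ‖w‖ ^ n := by gcongr
        _ = m * ((‖w‖ ^ (m - 1) * ‖w‖ ^ n) * ‖w - w'‖) := by ring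
        _ ≤ m * (‖w‖ * ‖w - w'‖) := by gcongr
  have c2 : ‖w'‖ ^ m * ‖conj w ^ n - conj w' ^ n‖ ≤ n * (‖w‖ * ‖w - w'‖) := by
    rcases Nat.eq_zero_or_pos n with hn | hn
    · subst hn; simp
    · have hp : ‖w‖ ^ m * ‖w‖ ^ (n - 1) ≤ ‖w‖ := by
        rw [← pow_add]
        calc ‖w‖ ^ (m + (n - 1)) ≤ ‖w‖ ^ 1 := pow_le_pow_of_le_one h0 h1 (by omega)
          _ = ‖w‖ := pow_one _
      calc ‖w'‖ ^ m * ‖conj w ^ n - conj w' ^ n‖
          ≤ ‖w‖ ^ m * (n * ‖w‖ ^ (n - 1) * ‖w - w'‖) := by gcongr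
        _ = n * ((‖w‖ ^ m * ‖w‖ ^ (n - 1)) * ‖w - w'‖) := by ring
        _ ≤ n * (‖w‖ * ‖w - w'‖) := by gcongr
  linarith

/-- The weight. -/
noncomputable def wt (p : ℕ × ℕ) : ℝ := (1 + p.1 + p.2) * (6 / 5) ^ (p.1 + p.2)

theorem wt_pos (p : ℕ × ℕ) : 0 < wt p := by unfold wt; positivity

theorem one_le_wt (p : ℕ × ℕ) : 1 ≤ wt p := by
  unfold wt
  have h1 : (1 : ℝ) ≤ 1 + p.1 + p.2 := by
    have : (0 : ℝ) ≤ p.1 := Nat.cast_nonneg _
    have : (0 : ℝ) ≤ p.2 := Nat.cast_nonneg _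
    linarith
  have h2 : (1 : ℝ) ≤ (6 / 5) ^ (p.1 + p.2) := one_le_pow₀ (by norm_num)
  nlinarith

theorem deg_le_wt (p : ℕ × ℕ) : ((p.1 : ℝ) + p.2) ≤ wt p := by
  unfold wt
  have h0 : (0 : ℝ) ≤ p.1 := Nat.cast_nonneg _
  have h0' : (0 : ℝ) ≤ p.2 := Nat.cast_nonneg _
  have h2 : (1 : ℝ) ≤ (6 / 5) ^ (p.1 + p.2) := one_le_pow₀ (by norm_num)
  nlinarith

/-- The value of the double series at `(w, conj w)`. -/
noncomputable def evd (f : ℕ × ℕ → ℝ) (w : ℂ) : ℂ :=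
  ∑' p : ℕ × ℕ, (f p : ℂ) * (w ^ p.1 * conj w ^ p.2)

variable {f g : ℕ × ℕ → ℝ}

theorem norm_mono_le_one {w : ℂ} (h1 : ‖w‖ ≤ 1) (m n : ℕ) : ‖w ^ m * conj w ^ n‖ ≤ 1 := by
  rw [norm_mul, norm_pow, norm_pow, Complex.norm_conj]
  exact mul_le_one₀ (pow_le_one₀ (norm_nonneg _) h1) (by positivity)
    (pow_le_one₀ (norm_nonneg _) h1)

theorem summable_evd (hf : Summable fun p => wt p * |f p|) {w : ℂ} (h1 : ‖w‖ ≤ 1) :
    Summable fun p : ℕ × ℕ => (f p : ℂ) * (w ^ p.1 * conj w ^ p.2) := by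
  refine Summable.of_norm_bounded hf fun p => ?_
  rw [norm_mul, Complex.norm_real, Real.norm_eq_abs]
  calc |f p| * ‖w ^ p.1 * conj w ^ p.2‖ ≤ |f p| * 1 := by
        gcongr; exact norm_mono_le_one h1 _ _
    _ = 1 * |f p| := by ring
    _ ≤ wt p * |f p| := by gcongr; exact one_le_wt p

theorem evd_sub_arr (hf : Summable fun p => wt p * |f p|) (hg : Summable fun p => wt p * |g p|)
    {w : ℂ} (h1 : ‖w‖ ≤ 1) : evd (fun p => f p - g p) w = evd f w - evd g w := by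
  unfold evd
  rw [← (summable_evd hf h1).tsum_sub (summable_evd hg h1)]
  refine tsum_congr fun p => ?_
  push_cast; ring

theorem norm_evd_le {η : ℝ} (hf : Summable fun p => wt p * |f p|)
    (hη : ∑' p, wt p * |f p| ≤ η) {w : ℂ} (h1 : ‖w‖ ≤ 1) : ‖evd f w‖ ≤ η := by
  refine le_trans (tsum_of_norm_bounded hf.hasSum fun p => ?_) hη
  rw [norm_mul, Complex.norm_real, Real.norm_eq_abs]
  calc |f p| * ‖w ^ p.1 * conj w ^ p.2‖ ≤ |f p| * 1 := by
        gcongr; exact norm_mono_le_one h1 _ _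
    _ = 1 * |f p| := by ring
    _ ≤ wt p * |f p| := by gcongr; exact one_le_wt p

/-- Generic form: a bound of the monomials that occur gives a bound of the value. -/
theorem norm_evd_le_of {η C : ℝ} (hC : 0 ≤ C) (hf : Summable fun p => wt p * |f p|)
    (hη : ∑' p, wt p * |f p| ≤ η) {w : ℂ}
    (hb : ∀ p, f p ≠ 0 → ‖w ^ p.1 * conj w ^ p.2‖ ≤ C) : ‖evd f w‖ ≤ η * C := by
  have hs : HasSum (fun p => (wt p * |f p|) * C) ((∑' p, wt p * |f p|) * C) :=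
    hf.hasSum.mul_right C
  refine le_trans (tsum_of_norm_bounded hs fun p => ?_) (mul_le_mul_of_nonneg_right hη hC)
  rw [norm_mul, Complex.norm_real, Real.norm_eq_abs]
  by_cases h0 : f p = 0
  · simp [h0]
  · calc |f p| * ‖w ^ p.1 * conj w ^ p.2‖ ≤ |f p| * C := by
          gcongr; exact hb p h0
      _ = 1 * (|f p| * C) := by ring
      _ ≤ wt p * (|f p| * C) := by gcongr; exact one_le_wt p
      _ = wt p * |f p| * C := by ring

/-- Generic form for differences. -/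
theorem norm_evd_sub_le_of {η C : ℝ} (hC : 0 ≤ C) (hf : Summable fun p => wt p * |f p|)
    (hη : ∑' p, wt p * |f p| ≤ η) {w w' : ℂ} (h1 : ‖w‖ ≤ 1) (h1' : ‖w'‖ ≤ 1)
    (hb : ∀ p : ℕ × ℕ, f p ≠ 0 →
      ‖w ^ p.1 * conj w ^ p.2 - w' ^ p.1 * conj w' ^ p.2‖ ≤ (p.1 + p.2) * C) :
    ‖evd f w - evd f w'‖ ≤ η * C := by
  have hs : HasSum (fun p => (wt p * |f p|) * C) ((∑' p, wt p * |f p|) * C) :=
    hf.hasSum.mul_right C
  unfold evd
  rw [← (summable_evd hf h1).tsum_sub (summable_evd hf h1')]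
  refine le_trans (tsum_of_norm_bounded hs fun p => ?_) (mul_le_mul_of_nonneg_right hη hC)
  rw [← mul_sub, norm_mul, Complex.norm_real, Real.norm_eq_abs]
  by_cases h0 : f p = 0
  · simp [h0]
  · calc |f p| * ‖w ^ p.1 * conj w ^ p.2 - w' ^ p.1 * conj w' ^ p.2‖
        ≤ |f p| * ((p.1 + p.2) * C) := by gcongr; exact hb p h0
      _ = (p.1 + p.2) * (|f p| * C) := by ring
      _ ≤ wt p * (|f p| * C) := by gcongr; exact deg_le_wt p
      _ = wt p * |f p| * C := by ring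

theorem norm_mono_eq (w : ℂ) (m n : ℕ) : ‖w ^ m * conj w ^ n‖ = ‖w‖ ^ (m + n) := by
  rw [norm_mul, norm_pow, norm_pow, Complex.norm_conj, pow_add]

/-- No constant term. -/
theorem norm_evd_le_one {η : ℝ} (hf : Summable fun p => wt p * |f p|)
    (hη : ∑' p, wt p * |f p| ≤ η) (h00 : f (0, 0) = 0) {w : ℂ} (h1 : ‖w‖ ≤ 1) :
    ‖evd f w‖ ≤ η * ‖w‖ := by
  refine norm_evd_le_of (norm_nonneg _) hf hη fun p hp => ?_
  rw [norm_mono_eq]
  have : 1 ≤ p.1 + p.2 := by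
    by_contra h
    apply hp
    have e : p = (0, 0) := Prod.ext (by simp; omega) (by simp; omega)
    rw [e]; exact h00
  calc ‖w‖ ^ (p.1 + p.2) ≤ ‖w‖ ^ 1 := pow_le_pow_of_le_one (norm_nonneg _) h1 this
    _ = ‖w‖ := pow_one _

theorem norm_evd_sub_le_one {η : ℝ} (hf : Summable fun p => wt p * |f p|)
    (hη : ∑' p, wt p * |f p| ≤ η) {w w' : ℂ} (h1 : ‖w‖ ≤ 1)
    (h : ‖w'‖ ≤ ‖w‖) : ‖evd f w - evd f w'‖ ≤ η * ‖w - w'‖ :=
  norm_evd_sub_le_of (norm_nonneg _) hf hη h1 (h.trans h1) fun p _ => mono_sub_le h1 h p.1 p.2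

theorem deg_ge_two (h00 : f (0, 0) = 0) (h10 : f (1, 0) = 0) (h01 : f (0, 1) = 0) {p : ℕ × ℕ}
    (hp : f p ≠ 0) : 2 ≤ p.1 + p.2 := by
  by_contra h
  apply hp
  obtain ⟨m, n⟩ := p
  simp only at h
  have : (m = 0 ∧ n = 0) ∨ (m = 1 ∧ n = 0) ∨ (m = 0 ∧ n = 1) := by omega
  rcases this with ⟨rfl, rfl⟩ | ⟨rfl, rfl⟩ | ⟨rfl, rfl⟩ <;> assumption

/-- No terms of degree at most one. -/
theorem norm_evd_le_two {η : ℝ} (hf : Summable fun p => wt p * |f p|)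
    (hη : ∑' p, wt p * |f p| ≤ η) (h00 : f (0, 0) = 0) (h10 : f (1, 0) = 0)
    (h01 : f (0, 1) = 0) {w : ℂ} (h1 : ‖w‖ ≤ 1) :
    ‖evd f w‖ ≤ η * ‖w‖ ^ 2 := by
  refine norm_evd_le_of (by positivity) hf hη fun p hp => ?_
  rw [norm_mono_eq]
  exact pow_le_pow_of_le_one (norm_nonneg _) h1 (deg_ge_two h00 h10 h01 hp)

theorem norm_evd_sub_le_two {η : ℝ} (hf : Summable fun p => wt p * |f p|)
    (hη : ∑' p, wt p * |f p| ≤ η) (h00 : f (0, 0) = 0) (h10 : f (1, 0) = 0)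
    (h01 : f (0, 1) = 0) {w w' : ℂ} (h1 : ‖w‖ ≤ 1) (h : ‖w'‖ ≤ ‖w‖) :
    ‖evd f w - evd f w'‖ ≤ η * ‖w‖ * ‖w - w'‖ := by
  have := norm_evd_sub_le_of (C := ‖w‖ * ‖w - w'‖) (by positivity) hf hη h1 (h.trans h1)
    fun p hp => mono_sub_le_two h1 h p.1 p.2 (deg_ge_two h00 h10 h01 hp)
  linarith

/-- `f` is within `η` of `g` in the weighted norm. -/
def Near (f g : ℕ × ℕ → ℝ) (η : ℝ) : Prop :=
  (Summable fun p => wt p * |f p - g p|) ∧ ∑' p, wt p * |f p - g p| ≤ η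

/-- The array of `w v`. -/
def P1 (p : ℕ × ℕ) : ℝ := if p = (1, 1) then 1 else 0

/-- The array of `v (1 + w²/2)`. -/
noncomputable def P2 (p : ℕ × ℕ) : ℝ := if p = (0, 1) then 1 else if p = (2, 1) then 1 / 2 else 0

/-- The array of `(1 + w²/2)(1 + v²/2) - (w v/2)(w² + v²)`. -/
noncomputable def P3 (p : ℕ × ℕ) : ℝ :=
  if p = (0, 0) then 1 else if p = (2, 0) then 1 / 2 else if p = (0, 2) then 1 / 2
  else if p = (2, 2) then 1 / 4 else if p = (3, 1) then -(1 / 2)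
  else if p = (1, 3) then -(1 / 2) else 0

theorem summable_of_support {h : ℕ × ℕ → ℝ} (S : Finset (ℕ × ℕ)) (hS : ∀ p ∉ S, h p = 0) :
    Summable fun p => wt p * |h p| :=
  summable_of_ne_finset_zero (s := S) fun p hp => by simp [hS p hp]

theorem evd_of_support {h : ℕ × ℕ → ℝ} (S : Finset (ℕ × ℕ)) (hS : ∀ p ∉ S, h p = 0) (w : ℂ) :
    evd h w = ∑ p ∈ S, (h p : ℂ) * (w ^ p.1 * conj w ^ p.2) :=
  tsum_eq_sum fun p hp => by simp [hS p hp]

theorem P1_support : ∀ p ∉ ({(1, 1)} : Finset (ℕ × ℕ)), P1 p = 0 := by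
  intro p hp
  simp only [Finset.mem_singleton] at hp
  simp [P1, hp]

theorem P2_support : ∀ p ∉ ({(0, 1), (2, 1)} : Finset (ℕ × ℕ)), P2 p = 0 := by
  intro p hp
  simp only [Finset.mem_insert, Finset.mem_singleton, not_or] at hp
  simp [P2, hp]

theorem P3_support : ∀ p ∉ ({(0, 0), (2, 0), (0, 2), (2, 2), (3, 1), (1, 3)} : Finset (ℕ × ℕ)),
    P3 p = 0 := by
  intro p hp
  simp only [Finset.mem_insert, Finset.mem_singleton, not_or] at hp
  simp [P3, hp]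

theorem evd_P1 (w : ℂ) : evd P1 w = w * conj w := by
  rw [evd_of_support _ P1_support]
  simp [P1]

theorem evd_P2 (w : ℂ) : evd P2 w = conj w * (1 + w ^ 2 / 2) := by
  rw [evd_of_support _ P2_support]
  rw [Finset.sum_pair (by decide)]
  simp [P2]
  ring

theorem evd_P3 (w : ℂ) : evd P3 w =
    (1 + w ^ 2 / 2) * (1 + conj w ^ 2 / 2) - w * conj w / 2 * (w ^ 2 + conj w ^ 2) := by
  rw [evd_of_support _ P3_support]
  rw [Finset.sum_insert (by decide), Finset.sum_insert (by decide), Finset.sum_insert (by decide),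
    Finset.sum_insert (by decide), Finset.sum_insert (by decide), Finset.sum_singleton]
  simp [P3]
  ring

theorem summable_P1 : Summable fun p => wt p * |P1 p| := summable_of_support _ P1_support
theorem summable_P2 : Summable fun p => wt p * |P2 p| := summable_of_support _ P2_support
theorem summable_P3 : Summable fun p => wt p * |P3 p| := summable_of_support _ P3_support

theorem Near.summable {η : ℝ} (h : Near f g η) (hg : Summable fun p => wt p * |g p|) :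
    Summable fun p => wt p * |f p| := by
  refine Summable.of_nonneg_of_le (fun p => by have := wt_pos p; positivity) (fun p => ?_)
    (h.1.add hg)
  have := wt_pos p
  rw [← mul_add]
  refine mul_le_mul_of_nonneg_left ?_ this.le
  calc |f p| = |(f p - g p) + g p| := by ring_nf
    _ ≤ |f p - g p| + |g p| := abs_add_le _ _

/-- Values of a near array. -/
theorem Near.evd_eq {η : ℝ} (h : Near f g η) (hg : Summable fun p => wt p * |g p|)
    {w : ℂ} (h1 : ‖w‖ ≤ 1) : evd f w = evd g w + evd (fun p => f p - g p) w := by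
  rw [evd_sub_arr (h.summable hg) hg h1]; ring

theorem Near.norm_le {η : ℝ} (h : Near f g η) {w : ℂ} (h1 : ‖w‖ ≤ 1) :
    ‖evd (fun p => f p - g p) w‖ ≤ η := norm_evd_le h.1 h.2 h1

/-- Injectivity from the arrays `al = sg - d ga` (near `w v`, no terms of degree at most one) and
`be` (near `v (1 + w²/2)`, no constant term). -/
theorem inj_arr {al be : ℕ × ℕ → ℝ} {η : ℝ} (hη0 : 0 ≤ η) (hη : η ≤ 1 / 20)
    (hal : Near al P1 η) (hbe : Near be P2 η) (a00 : al (0, 0) = 0) (a10 : al (1, 0) = 0)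
    (a01 : al (0, 1) = 0) (b00 : be (0, 0) = 0)
    {w₁ w₂ s₁ s₂ : ℂ} (h1 : ‖w₁‖ ≤ 1) (h2 : ‖w₂‖ ≤ 1) (hs1 : s₁ ≠ 0) (hs2 : s₂ ≠ 0)
    (hA : evd al w₁ / s₁ = evd al w₂ / s₂) (hB : evd be w₁ / s₁ = evd be w₂ / s₂) :
    w₁ = w₂ := by
  have c00 : (fun p => al p - P1 p) (0, 0) = 0 := by simp [a00, P1]
  have c10 : (fun p => al p - P1 p) (1, 0) = 0 := by simp [a10, P1]
  have c01 : (fun p => al p - P1 p) (0, 1) = 0 := by simp [a01, P1]
  have e00 : (fun p => be p - P2 p) (0, 0) = 0 := by simp [b00, P2]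
  have hb0 : ∀ w : ℂ, ‖w‖ ≤ 1 → ‖evd (fun p => be p - P2 p) w‖ ≤ η * ‖w‖ :=
    fun w hw => norm_evd_le_one hbe.1 hbe.2 e00 hw
  have hz : ∀ {w : ℂ}, ‖w‖ ≤ 1 → evd be w = 0 → w = 0 := by
    intro w hw h0
    rw [hbe.evd_eq summable_P2 hw, evd_P2] at h0
    exact inj_core_zero hη hb0 hw h0
  have hb00 : evd be 0 = 0 := by
    have h := norm_evd_le_one (f := be) (hbe.summable summable_P2) le_rfl b00 (w := 0) (by simp)
    simpa using h
  by_cases hw1 : w₁ = 0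
  · subst hw1
    rw [hb00, zero_div] at hB
    have : evd be w₂ = 0 := by
      rcases div_eq_zero_iff.1 hB.symm with h | h
      · exact h
      · exact absurd h hs2
    exact (hz h2 this).symm
  by_cases hw2 : w₂ = 0
  · subst hw2
    rw [hb00, zero_div] at hB
    have : evd be w₁ = 0 := by
      rcases div_eq_zero_iff.1 hB with h | h
      · exact h
      · exact absurd h hs1
    exact hz h1 this
  refine inj_core hη0 hη (a := evd fun p => al p - P1 p) (β := evd fun p => be p - P2 p)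
    (fun w hw => norm_evd_le_two hal.1 hal.2 c00 c10 c01 hw)
    (fun w w' hw h => norm_evd_sub_le_two hal.1 hal.2 c00 c10 c01 hw h)
    hb0 (fun w w' hw h => norm_evd_sub_le_one hbe.1 hbe.2 hw h) h1 h2 hw1 hw2 ?_
  rw [← evd_P1, ← evd_P1, ← evd_P2, ← evd_P2, ← hal.evd_eq summable_P1 h1,
    ← hal.evd_eq summable_P1 h2, ← hbe.evd_eq summable_P2 h1, ← hbe.evd_eq summable_P2 h2]
  rw [div_eq_div_iff hs1 hs2] at hA hB
  have : (evd al w₁ * evd be w₂) * (s₁ * s₂) = (evd al w₂ * evd be w₁) * (s₁ * s₂) := by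
    calc (evd al w₁ * evd be w₂) * (s₁ * s₂) = (evd al w₁ * s₂) * (evd be w₂ * s₁) := by ring
      _ = (evd al w₂ * s₁) * (evd be w₁ * s₂) := by rw [hA, hB]
      _ = (evd al w₂ * evd be w₁) * (s₁ * s₂) := by ring
  exact mul_right_cancel₀ (mul_ne_zero hs1 hs2) this

end Pool.Agent.Lib.MP_479d4c_gt.H77
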