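import Mathlib

set_option autoImplicit false

/-!
# The injectivity inequality (step (5))

Two functions `A = |w|² + a(w)`, `B = conj w * (1 + w²/2) + β(w)` on the closed unit disc with
small `a` (quadratic) and `β` (linear) satisfy: `A w₁ * B w₂ = A w₂ * B w₁` implies `w₁ = w₂`
for nonzero `w₁, w₂`.
-/

namespace Pool.Agent.Lib.MP_479d4c_gt.H77

open Complex ComplexConjugate

/-- Core inequality, ordered version. -/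
theorem inj_core_aux {η : ℝ} (hη0 : 0 ≤ η) (hη : η ≤ 1 / 20) {w₁ w₂ a₁ a₂ β₁ β₂ : ℂ}
    (h1 : ‖w₁‖ ≤ 1) (h21 : ‖w₂‖ ≤ ‖w₁‖) (hw2 : w₂ ≠ 0)
    (ha2 : ‖a₂‖ ≤ η * ‖w₂‖ ^ 2) (ha : ‖a₁ - a₂‖ ≤ η * ‖w₁‖ * ‖w₁ - w₂‖)
    (hb2 : ‖β₂‖ ≤ η * ‖w₂‖) (hb : ‖β₁ - β₂‖ ≤ η * ‖w₁ - w₂‖)
    (heq : (w₁ * conj w₁ + a₁) * (conj w₂ * (1 + w₂ ^ 2 / 2) + β₂) =
      (w₂ * conj w₂ + a₂) * (conj w₁ * (1 + w₁ ^ 2 / 2) + β₁)) : w₁ = w₂ := by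
  by_contra hne
  have hd : 0 < ‖w₁ - w₂‖ := norm_pos_iff.2 (sub_ne_zero.2 hne)
  have hp2 : 0 < ‖w₂‖ := norm_pos_iff.2 hw2
  have hp1 : 0 < ‖w₁‖ := lt_of_lt_of_le hp2 h21
  have h2 : ‖w₂‖ ≤ 1 := h21.trans h1
  set D := ‖w₁ - w₂‖ with hD
  set r₁ := ‖w₁‖ with hr1
  set r₂ := ‖w₂‖ with hr2
  -- the identity
  have hid : conj w₁ * conj w₂ * ((w₁ - w₂) * (1 - w₁ * w₂ / 2)) =
      -((a₁ - a₂) * (conj w₂ * (1 + w₂ ^ 2 / 2))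
        + a₂ * (conj w₂ * (1 + w₂ ^ 2 / 2) - conj w₁ * (1 + w₁ ^ 2 / 2))
        + (w₂ * conj w₂) * (β₂ - β₁)
        + (w₁ * conj w₁ - w₂ * conj w₂) * β₂
        + ((a₁ - a₂) * β₂ + a₂ * (β₂ - β₁))) := by
    linear_combination heq
  have hn2 : ‖conj w₂ * (1 + w₂ ^ 2 / 2)‖ ≤ r₂ * (3 / 2) := by
    rw [norm_mul, Complex.norm_conj]
    refine mul_le_mul_of_nonneg_left ?_ hp2.le
    calc ‖1 + w₂ ^ 2 / 2‖ ≤ ‖(1 : ℂ)‖ + ‖w₂ ^ 2 / 2‖ := norm_add_le _ _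
      _ = 1 + r₂ ^ 2 / 2 := by simp [hr2]
      _ ≤ 3 / 2 := by nlinarith
  have hdiff : ‖conj w₂ * (1 + w₂ ^ 2 / 2) - conj w₁ * (1 + w₁ ^ 2 / 2)‖ ≤ D * (5 / 2) := by
    have e : conj w₂ * (1 + w₂ ^ 2 / 2) - conj w₁ * (1 + w₁ ^ 2 / 2) =
        conj (w₂ - w₁) * (1 + w₂ ^ 2 / 2) + conj w₁ * ((w₂ - w₁) * (w₂ + w₁) / 2) := by
      rw [map_sub]; ring
    rw [e]
    have hDs : ‖w₂ - w₁‖ = D := by rw [hD, norm_sub_rev]
    calc ‖conj (w₂ - w₁) * (1 + w₂ ^ 2 / 2) + conj w₁ * ((w₂ - w₁) * (w₂ + w₁) / 2)‖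
        ≤ ‖conj (w₂ - w₁) * (1 + w₂ ^ 2 / 2)‖ + ‖conj w₁ * ((w₂ - w₁) * (w₂ + w₁) / 2)‖ :=
          norm_add_le _ _
      _ ≤ D * (3 / 2) + D := by
          refine add_le_add ?_ ?_
          · rw [norm_mul, Complex.norm_conj, hDs]
            refine mul_le_mul_of_nonneg_left ?_ hd.le
            calc ‖1 + w₂ ^ 2 / 2‖ ≤ ‖(1 : ℂ)‖ + ‖w₂ ^ 2 / 2‖ := norm_add_le _ _
              _ = 1 + r₂ ^ 2 / 2 := by simp [hr2]
              _ ≤ 3 / 2 := by nlinarith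
          · rw [norm_mul, Complex.norm_conj, norm_div, norm_mul, hDs]
            have : ‖w₂ + w₁‖ ≤ 2 := by
              calc ‖w₂ + w₁‖ ≤ ‖w₂‖ + ‖w₁‖ := norm_add_le _ _
                _ ≤ 2 := by linarith
            have h2' : ‖(2 : ℂ)‖ = 2 := by simp
            rw [h2']
            have : r₁ * (D * ‖w₂ + w₁‖ / 2) ≤ 1 * (D * 2 / 2) := by
              apply mul_le_mul h1 _ (by positivity) zero_le_one
              have := mul_le_mul_of_nonneg_left this hd.le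
              linarith
            linarith
      _ = D * (5 / 2) := by ring
  have hsq : ‖w₁ * conj w₁ - w₂ * conj w₂‖ ≤ 2 * r₁ * D := by
    have e : w₁ * conj w₁ - w₂ * conj w₂ = (w₁ - w₂) * conj w₁ + w₂ * conj (w₁ - w₂) := by
      rw [map_sub]; ring
    rw [e]
    calc ‖(w₁ - w₂) * conj w₁ + w₂ * conj (w₁ - w₂)‖
        ≤ ‖(w₁ - w₂) * conj w₁‖ + ‖w₂ * conj (w₁ - w₂)‖ := norm_add_le _ _
      _ = D * r₁ + r₂ * D := by simp only [norm_mul, Complex.norm_conj]; rfl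
      _ ≤ 2 * r₁ * D := by nlinarith
  have hb' : ‖β₂ - β₁‖ ≤ η * D := by rw [norm_sub_rev]; exact hb
  -- upper bound of the right hand side
  have hup : ‖conj w₁ * conj w₂ * ((w₁ - w₂) * (1 - w₁ * w₂ / 2))‖ ≤
      r₁ * r₂ * D * (η * (3 / 2) + η * (5 / 2) + η + 2 * η + 2 * η ^ 2) := by
    rw [hid, norm_neg]
    have t1 : ‖(a₁ - a₂) * (conj w₂ * (1 + w₂ ^ 2 / 2))‖ ≤ r₁ * r₂ * D * (η * (3 / 2)) := by
      rw [norm_mul]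
      calc ‖a₁ - a₂‖ * ‖conj w₂ * (1 + w₂ ^ 2 / 2)‖ ≤ (η * r₁ * D) * (r₂ * (3 / 2)) :=
            mul_le_mul ha hn2 (norm_nonneg _) (by positivity)
        _ = r₁ * r₂ * D * (η * (3 / 2)) := by ring
    have t2 : ‖a₂ * (conj w₂ * (1 + w₂ ^ 2 / 2) - conj w₁ * (1 + w₁ ^ 2 / 2))‖ ≤
        r₁ * r₂ * D * (η * (5 / 2)) := by
      rw [norm_mul]
      calc ‖a₂‖ * ‖conj w₂ * (1 + w₂ ^ 2 / 2) - conj w₁ * (1 + w₁ ^ 2 / 2)‖
          ≤ (η * r₂ ^ 2) * (D * (5 / 2)) := mul_le_mul ha2 hdiff (norm_nonneg _) (by positivity)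
        _ = r₂ * r₂ * (D * (η * (5 / 2))) := by ring
        _ ≤ r₁ * r₂ * (D * (η * (5 / 2))) := by
            apply mul_le_mul_of_nonneg_right _ (by positivity)
            exact mul_le_mul_of_nonneg_right h21 hp2.le
        _ = r₁ * r₂ * D * (η * (5 / 2)) := by ring
    have t3 : ‖(w₂ * conj w₂) * (β₂ - β₁)‖ ≤ r₁ * r₂ * D * η := by
      rw [norm_mul, norm_mul, Complex.norm_conj]
      calc r₂ * r₂ * ‖β₂ - β₁‖ ≤ r₂ * r₂ * (η * D) :=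
            mul_le_mul_of_nonneg_left hb' (by positivity)
        _ ≤ r₁ * r₂ * (η * D) := by
            apply mul_le_mul_of_nonneg_right _ (by positivity)
            exact mul_le_mul_of_nonneg_right h21 hp2.le
        _ = r₁ * r₂ * D * η := by ring
    have t4 : ‖(w₁ * conj w₁ - w₂ * conj w₂) * β₂‖ ≤ r₁ * r₂ * D * (2 * η) := by
      rw [norm_mul]
      calc ‖w₁ * conj w₁ - w₂ * conj w₂‖ * ‖β₂‖ ≤ (2 * r₁ * D) * (η * r₂) :=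
            mul_le_mul hsq hb2 (norm_nonneg _) (by positivity)
        _ = r₁ * r₂ * D * (2 * η) := by ring
    have t5 : ‖(a₁ - a₂) * β₂‖ ≤ r₁ * r₂ * D * (η ^ 2) := by
      rw [norm_mul]
      calc ‖a₁ - a₂‖ * ‖β₂‖ ≤ (η * r₁ * D) * (η * r₂) :=
            mul_le_mul ha hb2 (norm_nonneg _) (by positivity)
        _ = r₁ * r₂ * D * (η ^ 2) := by ring
    have t6 : ‖a₂ * (β₂ - β₁)‖ ≤ r₁ * r₂ * D * (η ^ 2) := by
      rw [norm_mul]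
      calc ‖a₂‖ * ‖β₂ - β₁‖ ≤ (η * r₂ ^ 2) * (η * D) :=
            mul_le_mul ha2 hb' (norm_nonneg _) (by positivity)
        _ = r₂ * r₂ * (D * η ^ 2) := by ring
        _ ≤ r₁ * r₂ * (D * η ^ 2) := by
            apply mul_le_mul_of_nonneg_right _ (by positivity)
            exact mul_le_mul_of_nonneg_right h21 hp2.le
        _ = r₁ * r₂ * D * (η ^ 2) := by ring
    refine (norm_add_le _ _).trans ?_
    refine (add_le_add (norm_add_le _ _) (norm_add_le _ _)).trans ?_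
    refine (add_le_add (add_le_add (norm_add_le _ _) le_rfl) le_rfl).trans ?_
    refine (add_le_add (add_le_add (add_le_add (norm_add_le _ _) le_rfl) le_rfl) le_rfl).trans ?_
    linarith
  -- lower bound
  have hlow : r₁ * r₂ * D * (1 / 2) ≤ ‖conj w₁ * conj w₂ * ((w₁ - w₂) * (1 - w₁ * w₂ / 2))‖ := by
    rw [norm_mul, norm_mul, norm_mul, Complex.norm_conj, Complex.norm_conj]
    have : (1 / 2 : ℝ) ≤ ‖1 - w₁ * w₂ / 2‖ := by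
      have h := norm_sub_norm_le (1 : ℂ) (w₁ * w₂ / 2)
      have h' : ‖w₁ * w₂ / 2‖ ≤ 1 / 2 := by
        rw [norm_div, norm_mul]
        have : r₁ * r₂ ≤ 1 := by nlinarith
        simpa using by linarith
      rw [norm_one] at h
      linarith
    calc r₁ * r₂ * D * (1 / 2) = r₁ * r₂ * (D * (1 / 2)) := by ring
      _ ≤ r₁ * r₂ * (D * ‖1 - w₁ * w₂ / 2‖) := by gcongr
  have hpos : 0 < r₁ * r₂ * D := by positivity
  have hlt : (η * (3 / 2) + η * (5 / 2) + η + 2 * η + 2 * η ^ 2) < 1 / 2 := by nlinarith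
  have := mul_lt_mul_of_pos_left hlt hpos
  linarith

/-- Injectivity from the perturbed identity: `A = w conj w + a w`, `B = conj w (1 + w²/2) + β w`
with `a` quadratically and `β` linearly small on the closed unit disc. -/
theorem inj_core {η : ℝ} (hη0 : 0 ≤ η) (hη : η ≤ 1 / 20) {a β : ℂ → ℂ}
    (ha0 : ∀ w, ‖w‖ ≤ 1 → ‖a w‖ ≤ η * ‖w‖ ^ 2)
    (ha : ∀ w w', ‖w‖ ≤ 1 → ‖w'‖ ≤ ‖w‖ → ‖a w - a w'‖ ≤ η * ‖w‖ * ‖w - w'‖)
    (hb0 : ∀ w, ‖w‖ ≤ 1 → ‖β w‖ ≤ η * ‖w‖)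
    (hb : ∀ w w', ‖w‖ ≤ 1 → ‖w'‖ ≤ ‖w‖ → ‖β w - β w'‖ ≤ η * ‖w - w'‖)
    {w₁ w₂ : ℂ} (h1 : ‖w₁‖ ≤ 1) (h2 : ‖w₂‖ ≤ 1) (hw1 : w₁ ≠ 0) (hw2 : w₂ ≠ 0)
    (heq : (w₁ * conj w₁ + a w₁) * (conj w₂ * (1 + w₂ ^ 2 / 2) + β w₂) =
      (w₂ * conj w₂ + a w₂) * (conj w₁ * (1 + w₁ ^ 2 / 2) + β w₁)) : w₁ = w₂ := by
  rcases le_total ‖w₂‖ ‖w₁‖ with h | h
  · exact inj_core_aux hη0 hη h1 h hw2 (ha0 _ h2) (ha _ _ h1 h) (hb0 _ h2) (hb _ _ h1 h) heq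
  · exact (inj_core_aux hη0 hη h2 h hw1 (ha0 _ h1) (ha _ _ h2 h) (hb0 _ h1) (hb _ _ h2 h)
      heq.symm).symm

/-- The value `B w = 0` forces `w = 0`. -/
theorem inj_core_zero {η : ℝ} (hη : η ≤ 1 / 20) {β : ℂ → ℂ}
    (hb0 : ∀ w, ‖w‖ ≤ 1 → ‖β w‖ ≤ η * ‖w‖) {w : ℂ} (h1 : ‖w‖ ≤ 1)
    (heq : conj w * (1 + w ^ 2 / 2) + β w = 0) : w = 0 := by
  by_contra hw
  have hp : 0 < ‖w‖ := norm_pos_iff.2 hw
  have h3 : ‖conj w * (1 + w ^ 2 / 2)‖ = ‖β w‖ := by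
    rw [eq_neg_of_add_eq_zero_left heq, norm_neg]
  have h4 : (1 / 2 : ℝ) ≤ ‖1 + w ^ 2 / 2‖ := by
    have h := norm_sub_le_norm_add (1 : ℂ) (w ^ 2 / 2)
    have h' : ‖w ^ 2 / 2‖ ≤ 1 / 2 := by
      rw [norm_div, norm_pow]
      have : ‖w‖ ^ 2 ≤ 1 := by nlinarith [norm_nonneg w]
      simpa using by linarith
    rw [norm_one] at h
    linarith
  rw [norm_mul, Complex.norm_conj] at h3
  have h5 := hb0 w h1
  have h6 : ‖w‖ * (1 / 2) ≤ ‖w‖ * ‖1 + w ^ 2 / 2‖ := mul_le_mul_of_nonneg_left h4 hp.le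
  nlinarith

end Pool.Agent.Lib.MP_479d4c_gt.H77
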